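import Pool.Agent.Q79.MR.POI

/-!
# Project MR of helper88: job GI (the Green function as an integral of the heat kernel)
-/

set_option autoImplicit false

open MeasureTheory ProbabilityTheory Filter
open scoped Topology ENNReal

namespace Pool.Agent.Q79.MR

open Pool.Agent.Q88.MR

noncomputable section

/-- summation along the antidiagonals -/
theorem tsum_antidiag (g : ℕ × ℕ → ℝ≥0∞) :
    ∑' p : ℕ × ℕ, g p = ∑' m : ℕ, ∑ p ∈ Finset.HasAntidiagonal.antidiagonal m, g p := by
  rw [← (Finset.HasAntidiagonal.sigmaAntidiagonalEquivProd).tsum_eq g, ENNReal.tsum_sigma']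
  refine tsum_congr fun m => ?_
  rw [tsum_fintype]
  exact (Finset.sum_coe_sort (Finset.HasAntidiagonal.antidiagonal m) g)

/-- the sum over the tuples of a function of the sum of the entries -/
theorem tsum_fin (j : ℕ) (f : ℕ → ℝ≥0∞) :
    ∑' n : Fin (j + 1) → ℕ, f (∑ i, n i) = ∑' m : ℕ, ((m + j).choose j : ℝ≥0∞) * f m := by
  induction j generalizing f with
  | zero =>
    rw [← (Equiv.funUnique (Fin 1) ℕ).symm.tsum_eq]
    refine tsum_congr fun m => ?_
    simp
  | succ j ih =>
    rw [← (Fin.consEquiv fun _ : Fin (j + 2) => ℕ).tsum_eq, ENNReal.tsum_prod']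
    have e1 : ∀ a : ℕ, ∑' b : Fin (j + 1) → ℕ,
        f (∑ i, (Fin.consEquiv fun _ : Fin (j + 2) => ℕ) (a, b) i) =
        ∑' b : ℕ, ((b + j).choose j : ℝ≥0∞) * f (a + b) := by
      intro a
      rw [← ih fun m => f (a + m)]
      refine tsum_congr fun b => ?_
      rw [Fin.sum_univ_succ]
      rfl
    rw [tsum_congr e1]
    have e2 : ∑' a : ℕ, ∑' b : ℕ, ((b + j).choose j : ℝ≥0∞) * f (a + b) =
        ∑' p : ℕ × ℕ, ((p.2 + j).choose j : ℝ≥0∞) * f (p.1 + p.2) :=
      (ENNReal.tsum_prod' (f := fun p : ℕ × ℕ => ((p.2 + j).choose j : ℝ≥0∞) * f (p.1 + p.2))).symm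
    rw [e2, tsum_antidiag]
    refine tsum_congr fun m => ?_
    have e3 : ∀ p ∈ Finset.HasAntidiagonal.antidiagonal m, ((p.2 + j).choose j : ℝ≥0∞) * f (p.1 + p.2) =
        ((p.2 + j).choose j : ℝ≥0∞) * f m := by
      intro p hp
      rw [Finset.HasAntidiagonal.mem_antidiagonal.1 hp]
    rw [Finset.sum_congr rfl e3, ← Finset.sum_mul]
    congr 1
    rw [← Nat.cast_sum]
    congr 1
    rw [show m + (j + 1) = m + j + 1 by ring, ← Nat.sum_range_add_choose]
    rw [Finset.Nat.sum_antidiagonal_eq_sum_range_succ_mk]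
    rw [← Finset.sum_range_reflect]
    refine Finset.sum_congr rfl fun i hi => ?_
    have := Finset.mem_range.1 hi
    simp only [Nat.succ_eq_add_one]
    congr 1
    omega

theorem integral_w (d j n : ℕ) (hd : 1 ≤ d) :
    ∫⁻ t in Set.Ioi (0 : ℝ), ENNReal.ofReal (t ^ j * wtq d n t) =
      ENNReal.ofReal ((n + j).factorial / (n.factorial * (2 * d) ^ (j + 1))) := by
  have hd0 : (0 : ℝ) < d := by exact_mod_cast hd
  have h := Real.integral_rpow_mul_exp_neg_mul_Ioi (a := ((n + j : ℕ) : ℝ) + 1) (r := 2 * d)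
    (by positivity) (by positivity)
  have hI : ∫ t in Set.Ioi (0 : ℝ), t ^ j * wtq d n t =
      (n + j).factorial / (n.factorial * (2 * d) ^ (j + 1)) := by
    have e : ∀ t ∈ Set.Ioi (0 : ℝ), t ^ j * wtq d n t =
        (2 * d : ℝ) ^ n / n.factorial *
          (t ^ (((n + j : ℕ) : ℝ) + 1 - 1) * Real.exp (-(2 * d * t))) := by
      intro t ht
      unfold wtq
      rw [add_sub_cancel_right, Real.rpow_natCast, mul_pow, pow_add]
      ring
    rw [setIntegral_congr_fun measurableSet_Ioi e, integral_const_mul, h, Real.Gamma_nat_eq_factorial]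
    have hk : (n.factorial : ℝ) ≠ 0 := by positivity
    rw [show (((n + j : ℕ) : ℝ) + 1) = ((n + j + 1 : ℕ) : ℝ) by push_cast; ring, Real.rpow_natCast,
      one_div, inv_pow, show n + j + 1 = n + (j + 1) by ring, pow_add]
    field_simp
  have hpos : 0 < ((n + j).factorial : ℝ) / (n.factorial * (2 * d) ^ (j + 1)) := by positivity
  have hint : IntegrableOn (fun t => t ^ j * wtq d n t) (Set.Ioi 0) := by
    by_contra hne
    rw [integral_undef hne] at hI
    linarith
  rw [← hI]
  refine (ofReal_integral_eq_lintegral_ofReal hint ?_).symm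
  refine (ae_restrict_iff' measurableSet_Ioi).2 (Filter.Eventually.of_forall fun t ht => ?_)
  exact mul_nonneg (pow_nonneg (le_of_lt ht) _) (wtq_nonneg d n (le_of_lt ht))

theorem wtq_meas (d n : ℕ) : Measurable (wtq d n) := by
  unfold wtq
  fun_prop

theorem t_GI (h1 : S_POI) (_h2 : S_HL) : S_GI := by
  intro d k hd hk z
  obtain ⟨j, rfl⟩ : ∃ j, k = j + 1 := ⟨k - 1, by omega⟩
  rw [Nat.add_sub_cancel]
  have hd0 : (0 : ℝ) < d := by exact_mod_cast hd
  have e1 : ∀ t ∈ Set.Ioi (0 : ℝ), ENNReal.ofReal (t ^ j * ∏ i, Pool.Agent.Q88.MR.hk t (z i)) =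
      ∑' n : ℕ, ENNReal.ofReal (t ^ j * wtq d n t) * q d n z := by
    intro t ht
    have ht' : (0 : ℝ) ≤ t := le_of_lt ht
    have hs := (h1 d hd t ht' z).mul_left (t ^ j)
    rw [← hs.tsum_eq, ENNReal.ofReal_tsum_of_nonneg _ hs.summable]
    · refine tsum_congr fun n => ?_
      have e0 : t ^ j * (Real.exp (-(2 * d * t)) * (2 * d * t) ^ n / n.factorial *
          (q d n z).toReal) = t ^ j * wtq d n t * (q d n z).toReal := by
        unfold wtq
        ring
      rw [e0, ENNReal.ofReal_mul (mul_nonneg (pow_nonneg ht' _) (wtq_nonneg d n ht')),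
        ENNReal.ofReal_toReal (q_ne_top hd n z)]
    · intro n
      exact mul_nonneg (pow_nonneg ht' _) (mul_nonneg (wtq_nonneg d n ht') ENNReal.toReal_nonneg)
  rw [setLIntegral_congr_fun measurableSet_Ioi e1, lintegral_tsum]
  · unfold GN
    rw [tsum_fin j fun m => q d m z, ← ENNReal.tsum_mul_left]
    refine tsum_congr fun n => ?_
    rw [lintegral_mul_const, integral_w d j n hd, ← mul_assoc, ← ENNReal.ofReal_mul (by positivity)]
    · congr 1
      rw [← ENNReal.ofReal_natCast]
      congr 1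
      rw [Nat.cast_choose ℝ (Nat.le_add_left j n), Nat.add_sub_cancel]
      field_simp
    · exact (((measurable_id.pow_const j).mul (wtq_meas d n)).ennreal_ofReal)
  · intro n
    exact (((measurable_id.pow_const j).mul (wtq_meas d n)).ennreal_ofReal.mul_const _).aemeasurable

end

end Pool.Agent.Q79.MR
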