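import Pool.Agent.Q79.MR.Lat

/-!
# Project MR of helper88: job HT (bounds for the far pairs)
-/

set_option autoImplicit false

open MeasureTheory ProbabilityTheory Filter
open scoped Topology ENNReal

namespace Pool.Agent.Q79.MR

open Pool.Agent.Q88.MR

/-- sums over the functions supported in `I` -/
theorem tsum_supp (N : ℕ) (I : Finset (Fin N)) (f : ℕ → ℝ≥0∞) :
    (∑' u : Fin N → ℕ, if ∀ i, i ∉ I → u i = 0 then f (∑ i, u i) else 0) =
      ∑' w : Fin I.card → ℕ, f (∑ i, w i) := by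
  classical
  obtain ⟨e⟩ : Nonempty (I ≃ Fin I.card) := ⟨I.equivFin⟩
  obtain ⟨φ, hφ⟩ : ∃ φ : (Fin I.card → ℕ) → (Fin N → ℕ), φ = fun w i => if h : i ∈ I then w (e ⟨i, h⟩) else 0 :=
    ⟨_, rfl⟩
  have hinj : Function.Injective φ := by
    intro w w' h
    funext j
    have h1 := congrFun h (e.symm j).1
    rw [hφ] at h1
    simp only [(e.symm j).2, dif_pos] at h1
    have h2 : (⟨(e.symm j).1, (e.symm j).2⟩ : I) = e.symm j := rfl
    rw [h2, e.apply_symm_apply] at h1
    exact h1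
  rw [← hinj.tsum_eq]
  · refine tsum_congr fun w => ?_
    rw [if_pos (fun i hi => by rw [hφ]; exact dif_neg hi)]
    congr 1
    rw [hφ]
    simp only
    rw [Finset.sum_dite, Finset.sum_const_zero, add_zero, ← e.sum_comp w]
    refine Finset.sum_bij' (fun x _ => (⟨x.1, (Finset.mem_filter.1 x.2).2⟩ : I))
      (fun x _ => ⟨x.1, Finset.mem_filter.2 ⟨Finset.mem_univ _, x.2⟩⟩) ?_ ?_ ?_ ?_ ?_
    · intro x _; exact Finset.mem_univ _
    · intro x _; exact Finset.mem_attach _ _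
    · intro x _; rfl
    · intro x _; rfl
    · intro x _; rfl
  · intro u hu
    rw [Function.mem_support] at hu
    have hs : ∀ i, i ∉ I → u i = 0 := by
      by_contra hc
      exact hu (if_neg hc)
    refine ⟨fun j => u (e.symm j).1, ?_⟩
    rw [hφ]
    funext i
    by_cases hi : i ∈ I
    · simp only [dif_pos hi, e.symm_apply_apply]
    · simp only [dif_neg hi, hs i hi]

/-- the value of a pair -/
noncomputable def WW {d : ℕ} {N : ℕ} (A : Finset (Fin d → ℤ)) (y : Fin d → ℤ) (u v : Fin N → ℕ) : ℝ≥0∞ :=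
  if ∀ i, u i = 0 ∨ v i = 0 then (∑ a ∈ A, q d (∑ i, u i) (a - y)) * ∑ a ∈ A, q d (∑ i, v i) (a - y) else 0

/-- the sum of Green functions over `A` -/
noncomputable def GA {d : ℕ} (A : Finset (Fin d → ℤ)) (k : ℕ) (y : Fin d → ℤ) : ℝ≥0∞ := ∑ a ∈ A, GN d k (a - y)

theorem sum_WW {d : ℕ} (N : ℕ) (A : Finset (Fin d → ℤ)) (y : Fin d → ℤ) :
    ∑' u : Fin N → ℕ, ∑' v : Fin N → ℕ, WW A y u v ≤ ∑ I : Finset (Fin N), GA A I.card y * GA A Iᶜ.card y := by
  classical
  have h1 : ∀ u v : Fin N → ℕ, WW A y u v ≤ ∑ I : Finset (Fin N),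
      (if ∀ i, i ∉ I → u i = 0 then ∑ a ∈ A, q d (∑ i, u i) (a - y) else 0) *
        (if ∀ i, i ∉ Iᶜ → v i = 0 then ∑ a ∈ A, q d (∑ i, v i) (a - y) else 0) := by
    intro u v
    unfold WW
    by_cases h : ∀ i, u i = 0 ∨ v i = 0
    · rw [if_pos h]
      refine le_trans (le_of_eq ?_) (Finset.single_le_sum (f := fun I : Finset (Fin N) =>
        (if ∀ i, i ∉ I → u i = 0 then ∑ a ∈ A, q d (∑ i, u i) (a - y) else 0) *
        (if ∀ i, i ∉ Iᶜ → v i = 0 then ∑ a ∈ A, q d (∑ i, v i) (a - y) else 0))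
        (fun I _ => zero_le) (Finset.mem_univ (Finset.univ.filter (fun i => u i ≠ 0))))
      rw [if_pos, if_pos]
      · intro i hi
        simp only [Finset.mem_compl, Finset.mem_filter, Finset.mem_univ, true_and, not_not] at hi
        rcases h i with h' | h'
        · exact absurd h' hi
        · exact h'
      · intro i hi
        simp only [Finset.mem_filter, Finset.mem_univ, true_and, not_not] at hi
        exact hi
    · rw [if_neg h]
      exact zero_le
  refine (ENNReal.tsum_le_tsum fun u => ENNReal.tsum_le_tsum fun v => h1 u v).trans (le_of_eq ?_)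
  have h2 : ∀ (I : Finset (Fin N)), (∑' u : Fin N → ℕ, if ∀ i, i ∉ I → u i = 0 then
      ∑ a ∈ A, q d (∑ i, u i) (a - y) else 0) = GA A I.card y := by
    intro I
    rw [tsum_supp N I (fun n => ∑ a ∈ A, q d n (a - y))]
    unfold GA GN
    rw [Summable.tsum_finsetSum (fun a _ => ENNReal.summable)]
  have h3 : ∀ u : Fin N → ℕ, ∑' v : Fin N → ℕ, ∑ I : Finset (Fin N),
      (if ∀ i, i ∉ I → u i = 0 then ∑ a ∈ A, q d (∑ i, u i) (a - y) else 0) *
        (if ∀ i, i ∉ Iᶜ → v i = 0 then ∑ a ∈ A, q d (∑ i, v i) (a - y) else 0) =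
      ∑ I : Finset (Fin N), (if ∀ i, i ∉ I → u i = 0 then ∑ a ∈ A, q d (∑ i, u i) (a - y) else 0) *
        GA A Iᶜ.card y := by
    intro u
    rw [Summable.tsum_finsetSum (fun a _ => ENNReal.summable)]
    refine Finset.sum_congr rfl fun I _ => ?_
    rw [ENNReal.tsum_mul_left, h2]
  simp only [h3]
  rw [Summable.tsum_finsetSum (fun a _ => ENNReal.summable)]
  refine Finset.sum_congr rfl fun I _ => ?_
  rw [ENNReal.tsum_mul_right, h2]

/-- the bound of `GA` -/
theorem GA_le (h : S_UP) {d k : ℕ} (hk : 2 * k < d) (A : Finset (Fin d → ℤ)) : ∃ C : ℝ, 0 ≤ C ∧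
    ∀ y : Fin d → ℤ, GA A k y ≤ ENNReal.ofReal (C / (1 + ‖y‖) ^ (d - 2 * k)) := by
  obtain ⟨C, hC0, hC⟩ := h d k hk
  refine ⟨∑ a ∈ A, C * (1 + ‖a‖) ^ (d - 2 * k), Finset.sum_nonneg fun a _ => by positivity, fun y => ?_⟩
  unfold GA
  rw [Finset.sum_div, ENNReal.ofReal_sum_of_nonneg (fun a _ => by positivity)]
  refine Finset.sum_le_sum fun a _ => (hC (a - y)).trans (ENNReal.ofReal_le_ofReal ?_)
  rw [div_le_div_iff₀ (by positivity) (by positivity), mul_assoc, ← mul_pow]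
  refine mul_le_mul_of_nonneg_left ?_ hC0.le
  refine pow_le_pow_left₀ (by positivity) ?_ _
  have h1 : ‖y‖ ≤ ‖a‖ + ‖a - y‖ := by
    have := norm_sub_norm_le y a
    rw [norm_sub_rev] at this
    linarith
  have h2 := mul_nonneg (norm_nonneg a) (norm_nonneg (a - y))
  nlinarith

theorem t_HT (h : S_UP) : S_HT := by
  classical
  intro N d hNd A
  have hd : 1 ≤ d := by omega
  -- the bound without the condition
  have hfull : ∃ C : ℝ, 0 ≤ C ∧ ∀ y : Fin d → ℤ, ∑' u : Fin N → ℕ, ∑' v : Fin N → ℕ, WW A y u v ≤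
      ENNReal.ofReal (C / (1 + ‖y‖) ^ (2 * d - 2 * N)) := by
    have hI : ∀ I : Finset (Fin N), ∃ C : ℝ, 0 ≤ C ∧ ∀ y : Fin d → ℤ,
        GA A I.card y * GA A Iᶜ.card y ≤ ENNReal.ofReal (C / (1 + ‖y‖) ^ (2 * d - 2 * N)) := by
      intro I
      have hc : I.card + Iᶜ.card = N := by
        rw [Finset.card_add_card_compl, Fintype.card_fin]
      obtain ⟨C1, h10, h1⟩ := GA_le h (k := I.card) (by omega) A
      obtain ⟨C2, h20, h2⟩ := GA_le h (k := Iᶜ.card) (by omega) A
      refine ⟨C1 * C2, by positivity, fun y => (mul_le_mul' (h1 y) (h2 y)).trans (le_of_eq ?_)⟩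
      rw [← ENNReal.ofReal_mul (by positivity)]
      congr 1
      rw [div_mul_div_comm, ← pow_add]
      congr 2
      omega
    choose C hC0 hC using hI
    refine ⟨∑ I, C I, Finset.sum_nonneg fun I _ => hC0 I, fun y => (sum_WW N A y).trans ?_⟩
    rw [Finset.sum_div, ENNReal.ofReal_sum_of_nonneg (fun I _ => by
      have := hC0 I
      positivity)]
    exact Finset.sum_le_sum fun I _ => hC I y
  obtain ⟨C, hC0, hC⟩ := hfull
  have hle : ∀ T y, HT N T A y ≤ ∑' u : Fin N → ℕ, ∑' v : Fin N → ℕ, WW A y u v := by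
    intro T y
    unfold HT
    refine ENNReal.tsum_le_tsum fun u => ENNReal.tsum_le_tsum fun v => ?_
    unfold WW
    by_cases h1 : ∀ i, u i = 0 ∨ v i = 0
    · rw [if_pos h1]
      split_ifs
      · exact le_rfl
      · exact zero_le
    · rw [if_neg h1, if_neg (fun h2 => h1 h2.1)]
  refine ⟨⟨C, fun T y => (hle T y).trans (hC y)⟩, ?_⟩
  -- the function on triples
  obtain ⟨F, hF⟩ : ∃ F : (Fin d → ℤ) × ((Fin N → ℕ) × (Fin N → ℕ)) → ℝ≥0∞, F = fun p => WW A p.1 p.2.1 p.2.2 :=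
    ⟨_, rfl⟩
  have hFs : ∑' p, F p ≠ ⊤ := by
    rw [ENNReal.tsum_prod']
    have h1 : ∀ y : Fin d → ℤ, ∑' w : (Fin N → ℕ) × (Fin N → ℕ), F (y, w) ≤
        ENNReal.ofReal C * ENNReal.ofReal ((1 + ‖y‖) ^ (-((2 * d - 2 * N : ℕ) : ℝ))) := by
      intro y
      rw [ENNReal.tsum_prod', hF]
      refine (hC y).trans (le_of_eq ?_)
      rw [← ENNReal.ofReal_mul hC0, Real.rpow_neg (by positivity), Real.rpow_natCast, div_eq_mul_inv]
    refine ne_top_of_le_ne_top ?_ (ENNReal.tsum_le_tsum h1)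
    rw [ENNReal.tsum_mul_left]
    refine ENNReal.mul_ne_top ENNReal.ofReal_ne_top (lat_fin hd ?_).ne
    have : d < 2 * d - 2 * N := by omega
    exact_mod_cast this
  have hHT : ∀ T : ℕ, ∑' y, HT N T A y = ∑' p : (Fin d → ℤ) × ((Fin N → ℕ) × (Fin N → ℕ)),
      if ∃ i, T < p.2.1 i + p.2.2 i then F p else 0 := by
    intro T
    rw [ENNReal.tsum_prod']
    refine tsum_congr fun y => ?_
    rw [ENNReal.tsum_prod']
    unfold HT
    refine tsum_congr fun u => tsum_congr fun v => ?_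
    rw [hF]
    simp only [WW]
    by_cases h1 : ∀ i, u i = 0 ∨ v i = 0 <;> by_cases h2 : ∃ i, T < u i + v i
    · rw [if_pos ⟨h1, h2⟩, if_pos h2, if_pos h1]
    · rw [if_neg (fun h => h2 h.2), if_neg h2]
    · rw [if_neg (fun h => h1 h.1), if_pos h2, if_neg h1]
    · rw [if_neg (fun h => h2 h.2), if_neg h2]
  rw [ENNReal.tendsto_nhds_zero]
  intro ε hε
  have h1 := ENNReal.tendsto_tsum_compl_atTop_zero hFs
  rw [ENNReal.tendsto_nhds_zero] at h1
  obtain ⟨s, hs⟩ := eventually_atTop.1 (h1 ε hε)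
  have hs' := hs s le_rfl
  filter_upwards [eventually_ge_atTop (s.sup fun p => Finset.univ.sup fun i => p.2.1 i + p.2.2 i)] with T hT
  rw [hHT T]
  refine le_trans ?_ hs'
  have h2 : ∀ p, (if ∃ i, T < p.2.1 i + p.2.2 i then F p else 0) ≤ ({x | x ∉ s} : Set _).indicator F p := by
    intro p
    by_cases hp : p ∈ s
    · rw [if_neg]
      · exact zero_le
      · rintro ⟨i, hi⟩
        have h3 : p.2.1 i + p.2.2 i ≤ Finset.univ.sup fun i => p.2.1 i + p.2.2 i :=
          Finset.le_sup (f := fun i => p.2.1 i + p.2.2 i) (Finset.mem_univ i)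
        have h4 : (Finset.univ.sup fun i => p.2.1 i + p.2.2 i) ≤
            s.sup fun p => Finset.univ.sup fun i => p.2.1 i + p.2.2 i :=
          Finset.le_sup (f := fun p : (Fin d → ℤ) × ((Fin N → ℕ) × (Fin N → ℕ)) =>
            Finset.univ.sup fun i => p.2.1 i + p.2.2 i) hp
        omega
    · rw [Set.indicator_of_mem (show p ∈ {x | x ∉ s} from hp)]
      split_ifs
      · exact le_rfl
      · exact zero_le
  refine (ENNReal.tsum_le_tsum h2).trans (le_of_eq ?_)
  rw [← tsum_subtype]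
  rfl

end Pool.Agent.Q79.MR
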