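import Pool.Agent.Q88.MR.Stm

/-!
# Project MR of helper88: lattice sums
-/

set_option autoImplicit false

open MeasureTheory ProbabilityTheory Filter
open scoped Topology ENNReal

namespace Pool.Agent.Q79.MR

open Pool.Agent.Q88.MR

/-- product sums over the lattice -/
theorem tsum_prod_pi (f : ℤ → ℝ≥0∞) (d : ℕ) : ∑' y : Fin d → ℤ, ∏ i, f (y i) = (∑' n, f n) ^ d := by
  induction d with
  | zero =>
    rw [pow_zero, tsum_eq_single (default : Fin 0 → ℤ)]
    · simp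
    · intro b hb
      exact absurd (Subsingleton.elim b default) hb
  | succ d ih =>
    rw [← (Fin.consEquiv (fun _ => ℤ)).tsum_eq, ENNReal.tsum_prod', pow_succ', ← ih, ← ENNReal.tsum_mul_right]
    refine tsum_congr fun n => ?_
    rw [← ENNReal.tsum_mul_left]
    refine tsum_congr fun y => ?_
    rw [Fin.prod_univ_succ]
    rfl

theorem line_fin {p : ℝ} (hp : 1 < p) : ∑' n : ℤ, ENNReal.ofReal ((1 + |(n : ℝ)|) ^ (-p)) < ⊤ := by
  have h1 : Summable (fun n : ℕ => ((1 : ℝ) + (n : ℝ)) ^ (-p)) := by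
    have h2 : Summable (fun n : ℕ => ((n : ℝ)) ^ (-p)) := Real.summable_nat_rpow.2 (by linarith)
    have h3 := (summable_nat_add_iff 1).2 h2
    refine h3.congr fun n => ?_
    push_cast
    rw [add_comm]
  have h4 : Summable (fun n : ℤ => (1 + |(n : ℝ)|) ^ (-p)) := by
    refine Summable.of_nat_of_neg ?_ ?_
    · refine h1.congr fun n => ?_
      simp
    · refine h1.congr fun n => ?_
      simp
  rw [← ENNReal.ofReal_tsum_of_nonneg (fun n => by positivity) h4]
  exact ENNReal.ofReal_lt_top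

/-- the lattice sum -/
theorem lat_fin {d : ℕ} (hd : 1 ≤ d) {p : ℝ} (hp : (d : ℝ) < p) :
    ∑' y : Fin d → ℤ, ENNReal.ofReal ((1 + ‖y‖) ^ (-p)) < ⊤ := by
  have hd0 : (0 : ℝ) < d := by exact_mod_cast hd
  have h1 : ∀ y : Fin d → ℤ, ENNReal.ofReal ((1 + ‖y‖) ^ (-p)) ≤
      ∏ i, ENNReal.ofReal ((1 + |((y i : ℤ) : ℝ)|) ^ (-(p / d))) := by
    intro y
    rw [← ENNReal.ofReal_prod_of_nonneg (fun i _ => by positivity)]
    refine ENNReal.ofReal_le_ofReal ?_
    have h2 : (1 + ‖y‖) ^ (-p) = ∏ _i : Fin d, (1 + ‖y‖) ^ (-(p / d)) := by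
      rw [Finset.prod_const, Finset.card_univ, Fintype.card_fin, ← Real.rpow_natCast, ← Real.rpow_mul (by positivity)]
      congr 1
      field_simp
    rw [h2]
    refine Finset.prod_le_prod (fun i _ => by positivity) fun i _ => ?_
    have h3 : |((y i : ℤ) : ℝ)| ≤ ‖y‖ := by
      have := norm_le_pi_norm y i
      rwa [Int.norm_eq_abs] at this
    have hpd : 0 < p / d := by
      have : 0 < p := by linarith
      positivity
    exact Real.rpow_le_rpow_of_nonpos (by positivity) (by linarith) (by linarith)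
  refine lt_of_le_of_lt (ENNReal.tsum_le_tsum h1) ?_
  rw [tsum_prod_pi (fun n : ℤ => ENNReal.ofReal ((1 + |(n : ℝ)|) ^ (-(p / d))))]
  exact ENNReal.pow_lt_top (line_fin (by rw [lt_div_iff₀ hd0]; linarith))

theorem tendsto_norm_cof (d : ℕ) : Tendsto (fun z : Fin d → ℤ => ‖z‖) cofinite atTop := by
  rw [← Filter.cocompact_eq_cofinite]
  exact tendsto_norm_cocompact_atTop

theorem t_LS : S_LS := by
  intro d m hm hmd H ⟨C₀, hC₀⟩ ε hε
  have hd : 1 ≤ d := hm.trans hmd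
  obtain ⟨C, hC0, hC⟩ : ∃ C : ℝ, 0 ≤ C ∧ ∀ y, H y ≤ ENNReal.ofReal (C / (1 + ‖y‖) ^ (d + m)) := by
    refine ⟨|C₀|, abs_nonneg _, fun y => (hC₀ y).trans (ENNReal.ofReal_le_ofReal ?_)⟩
    exact div_le_div_of_nonneg_right (le_abs_self _) (by positivity)
  have hmr : (1 : ℝ) ≤ m := by exact_mod_cast hm
  have hmdr : (m : ℝ) ≤ d := by exact_mod_cast hmd
  obtain ⟨b, hb⟩ : ∃ b : ℝ, b = 2 * m - 1 / 2 := ⟨_, rfl⟩
  obtain ⟨p, hp⟩ : ∃ p : ℝ, p = d + 1 / 2 := ⟨_, rfl⟩
  obtain ⟨g, hg⟩ : ∃ g : (Fin d → ℤ) → ℝ≥0∞, g = fun y => ENNReal.ofReal ((1 + ‖y‖) ^ (-p)) := ⟨_, rfl⟩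
  have hS : ∑' y, g y < ⊤ := by
    rw [hg]
    exact lat_fin hd (by rw [hp]; linarith)
  obtain ⟨s, hs⟩ : ∃ s : ℝ, s = (∑' y, g y).toReal := ⟨_, rfl⟩
  have hsE : ∑' y, g y = ENNReal.ofReal s := by rw [hs, ENNReal.ofReal_toReal hS.ne]
  have hs0 : 0 ≤ s := by rw [hs]; exact ENNReal.toReal_nonneg
  -- the two parts
  have key : ∀ z y : Fin d → ℤ, ENNReal.ofReal (1 / (1 + ‖y - z‖) ^ m) * H y ≤
      ENNReal.ofReal (1 / (1 + ‖z‖) ^ m) * (2 ^ m * H y) +
      ENNReal.ofReal (C * 2 ^ b * (1 + ‖z‖) ^ (-b)) * (g y + g (y - z)) := by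
    intro z y
    have hy := norm_nonneg y
    have hz := norm_nonneg z
    have hyz := norm_nonneg (y - z)
    rcases le_or_gt ‖y‖ (‖z‖ / 2) with h | h
    · refine le_trans ?_ le_self_add
      rw [← mul_assoc]
      refine mul_le_mul_left ?_ _
      have e1 : (2 : ℝ≥0∞) ^ m = ENNReal.ofReal (2 ^ m) := by
        rw [ENNReal.ofReal_pow (by norm_num)]; norm_num
      rw [e1, ← ENNReal.ofReal_mul (by positivity)]
      refine ENNReal.ofReal_le_ofReal ?_
      have h1 : ‖z‖ / 2 ≤ ‖y - z‖ := by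
        have := norm_sub_norm_le z y
        rw [norm_sub_rev] at this
        linarith
      have h2 : (1 + ‖z‖) ^ m ≤ 2 ^ m * (1 + ‖y - z‖) ^ m := by
        rw [← mul_pow]
        exact pow_le_pow_left₀ (by positivity) (by linarith) m
      rw [one_div_mul_eq_div, div_le_div_iff₀ (by positivity) (by positivity)]
      linarith
    · refine le_trans ?_ le_add_self
      refine (mul_le_mul_right (hC y) _).trans ?_
      rw [hg]
      simp only
      rw [← ENNReal.ofReal_add (by positivity) (by positivity), ← ENNReal.ofReal_mul (by positivity),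
        ← ENNReal.ofReal_mul (by positivity)]
      refine ENNReal.ofReal_le_ofReal ?_
      -- real inequality
      obtain ⟨Y, hY⟩ : ∃ Y : ℝ, Y = 1 + ‖y‖ := ⟨_, rfl⟩
      obtain ⟨Z, hZ⟩ : ∃ Z : ℝ, Z = 1 + ‖z‖ := ⟨_, rfl⟩
      obtain ⟨V, hV⟩ : ∃ V : ℝ, V = 1 + ‖y - z‖ := ⟨_, rfl⟩
      rw [← hY, ← hZ, ← hV]
      have hY1 : 1 ≤ Y := by linarith
      have hZ1 : 1 ≤ Z := by linarith
      have hV1 : 1 ≤ V := by linarith
      have hYp : 0 < Y := by linarith
      have hZp : 0 < Z := by linarith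
      have hVp : 0 < V := by linarith
      have hYZ : Z / 2 ≤ Y := by linarith
      have f1 : 1 / V ^ m = V ^ (-(m : ℝ)) := by
        rw [Real.rpow_neg hVp.le, Real.rpow_natCast, one_div]
      have f2 : C / Y ^ (d + m) = C * (Y ^ (-(p - m)) * Y ^ (-b)) := by
        rw [← Real.rpow_add hYp, div_eq_mul_inv]
        congr 1
        have : -(p - m) + -b = -((d + m : ℕ) : ℝ) := by
          rw [hp, hb]; push_cast; ring
        rw [this, Real.rpow_neg hYp.le, Real.rpow_natCast]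
      have f3 : Y ^ (-b) ≤ 2 ^ b * Z ^ (-b) := by
        have h1 : Y ^ (-b) ≤ (Z / 2) ^ (-b) :=
          Real.rpow_le_rpow_of_nonpos (by positivity) hYZ (by rw [hb]; linarith)
        refine h1.trans (le_of_eq ?_)
        rw [Real.div_rpow hZp.le (by norm_num), Real.rpow_neg (by norm_num : (0:ℝ) ≤ 2), div_inv_eq_mul, mul_comm]
      have f4 : V ^ (-(m : ℝ)) * Y ^ (-(p - m)) ≤ Y ^ (-p) + V ^ (-p) := by
        rcases le_total Y V with hyv | hyv
        · have h1 : V ^ (-(m : ℝ)) ≤ Y ^ (-(m : ℝ)) := Real.rpow_le_rpow_of_nonpos hYp hyv (by linarith)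
          have h2 : Y ^ (-p) = Y ^ (-(m : ℝ)) * Y ^ (-(p - m)) := by
            rw [← Real.rpow_add hYp]; congr 1; ring
          have h3 : 0 ≤ V ^ (-p) := by positivity
          rw [h2]
          have := mul_le_mul_of_nonneg_right h1 (show (0:ℝ) ≤ Y ^ (-(p - m)) by positivity)
          linarith
        · have h1 : Y ^ (-(p - m)) ≤ V ^ (-(p - m)) :=
            Real.rpow_le_rpow_of_nonpos hVp hyv (by rw [hp]; linarith)
          have h2 : V ^ (-p) = V ^ (-(m : ℝ)) * V ^ (-(p - m)) := by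
            rw [← Real.rpow_add hVp]; congr 1; ring
          have h3 : 0 ≤ Y ^ (-p) := by positivity
          rw [h2]
          have := mul_le_mul_of_nonneg_left h1 (show (0:ℝ) ≤ V ^ (-(m : ℝ)) by positivity)
          linarith
      rw [f1, f2]
      calc V ^ (-(m : ℝ)) * (C * (Y ^ (-(p - m)) * Y ^ (-b)))
          = C * Y ^ (-b) * (V ^ (-(m : ℝ)) * Y ^ (-(p - m))) := by ring
        _ ≤ C * (2 ^ b * Z ^ (-b)) * (Y ^ (-p) + V ^ (-p)) := by
            refine mul_le_mul (mul_le_mul_of_nonneg_left f3 hC0) f4 (by positivity) (by positivity)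
        _ = _ := by ring
  -- the limit
  have hlim : Tendsto (fun z : Fin d → ℤ => C * 2 ^ b * 2 * s * (1 + ‖z‖) ^ (-((m : ℝ) - 1 / 2))) cofinite (𝓝 0) := by
    have h1 : Tendsto (fun x : ℝ => x ^ (-((m : ℝ) - 1 / 2))) atTop (𝓝 0) :=
      tendsto_rpow_neg_atTop (by linarith)
    have h2 : Tendsto (fun z : Fin d → ℤ => 1 + ‖z‖) cofinite atTop :=
      tendsto_atTop_add_const_left _ _ (tendsto_norm_cof d)
    have h3 := (h1.comp h2).const_mul (C * 2 ^ b * 2 * s)
    rw [mul_zero] at h3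
    exact h3
  filter_upwards [hlim.eventually_le_const hε] with z hz
  refine (ENNReal.tsum_le_tsum (key z)).trans ?_
  rw [ENNReal.tsum_add, ENNReal.tsum_mul_left, ENNReal.tsum_mul_left, ENNReal.tsum_mul_left, ENNReal.tsum_add,
    mul_add (ENNReal.ofReal (1 / (1 + ‖z‖) ^ m))]
  have e1 : ∑' y, g (y - z) = ∑' y, g y := (Equiv.subRight z).tsum_eq g
  rw [e1, hsE, ← ENNReal.ofReal_add hs0 hs0, ← ENNReal.ofReal_mul (by positivity),
    ← ENNReal.ofReal_mul (by positivity)]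
  refine add_le_add le_rfl (ENNReal.ofReal_le_ofReal ?_)
  have hZp : (0 : ℝ) < 1 + ‖z‖ := by positivity
  have e2 : (1 + ‖z‖) ^ (-b) = (1 / (1 + ‖z‖) ^ m) * (1 + ‖z‖) ^ (-((m : ℝ) - 1 / 2)) := by
    have : 1 / (1 + ‖z‖) ^ m = (1 + ‖z‖) ^ (-(m : ℝ)) := by
      rw [Real.rpow_neg hZp.le, Real.rpow_natCast, one_div]
    rw [this, ← Real.rpow_add hZp]
    congr 1
    rw [hb]; ring
  rw [e2]
  have h0 : 0 ≤ 1 / (1 + ‖z‖) ^ m := by positivity
  have := mul_le_mul_of_nonneg_left hz h0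
  linarith

end Pool.Agent.Q79.MR
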