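import Pool.Agent.Q79.MR.UL

/-!
# Project MR of helper88: job MK (the Markov property)
-/

set_option autoImplicit false

open MeasureTheory ProbabilityTheory Filter
open scoped Topology ENNReal

universe u

namespace Pool.Agent.Q79.MR

open Pool.Agent.Q88.MR

theorem vec_inj {d : ℕ} : Function.Injective (vec : Fin d × Bool → Fin d → ℤ) := by
  rintro ⟨i, a⟩ ⟨j, b⟩ h
  have hi : (vec (i, a) : Fin d → ℤ) i = (vec (j, b) : Fin d → ℤ) i := by rw [h]
  by_cases hij : i = j
  · subst hij
    cases a <;> cases b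
    · rfl
    · simp [vec] at hi
    · simp [vec] at hi
    · rfl
  · cases a <;> cases b <;> simp [vec, hij] at hi

section
variable {N d : ℕ} {Ω : Type u} [MeasurableSpace Ω] {P : Measure Ω} {S : Fin N → ℕ → Ω → Fin d → ℤ}

/-- the steps -/
def stp (S : Fin N → ℕ → Ω → Fin d → ℤ) (p : Fin N × ℕ) (ω : Ω) : Fin d → ℤ := S p.1 (p.2 + 1) ω - S p.1 p.2 ω

theorem stp_meas (hS : Walks P S) (p : Fin N × ℕ) : Measurable (stp S p) :=
  (hS.meas _ _).sub (hS.meas _ _)

/-- all steps have the same law -/
theorem stp_law (hd : 1 ≤ d) [IsProbabilityMeasure P] (hS : Walks P S) (p p' : Fin N × ℕ) :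
    P.map (stp S p) = P.map (stp S p') := by
  have hval : ∀ (p : Fin N × ℕ) (x : Fin d → ℤ), P.map (stp S p) {x} =
      if x ∈ Set.range (vec : Fin d × Bool → Fin d → ℤ) then (2 * d : ℝ≥0∞)⁻¹ else 0 := by
    classical
    intro p x
    have : IsProbabilityMeasure (P.map (stp S p)) := Measure.isProbabilityMeasure_map (stp_meas hS p).aemeasurable
    have h1 : ∀ s : Fin d × Bool, P.map (stp S p) {vec s} = (2 * d : ℝ≥0∞)⁻¹ := by
      intro s
      rw [Measure.map_apply (stp_meas hS p) (measurableSet_singleton _)]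
      exact hS.law p.1 p.2 s
    split_ifs with hx
    · obtain ⟨s, rfl⟩ := hx
      exact h1 s
    · have h2 : P.map (stp S p) (Finset.univ.image (vec : Fin d × Bool → Fin d → ℤ)) = 1 := by
        have h3 := sum_measure_singleton (μ := P.map (stp S p))
          (s := Finset.univ.image (vec : Fin d × Bool → Fin d → ℤ))
        rw [← h3, Finset.sum_image vec_inj.injOn]
        simp only [h1]
        rw [Finset.sum_const, Finset.card_univ, Fintype.card_prod, Fintype.card_fin, Fintype.card_bool,
          nsmul_eq_mul]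
        have hd0 : (2 * d : ℝ≥0∞) ≠ 0 := by
          have : (d : ℝ≥0∞) ≠ 0 := by
            have : d ≠ 0 := by omega
            exact_mod_cast this
          exact mul_ne_zero (by norm_num) this
        have hdt : (2 * d : ℝ≥0∞) ≠ ⊤ := ENNReal.mul_ne_top (by norm_num) (ENNReal.natCast_ne_top d)
        have h4 : ((d * 2 : ℕ) : ℝ≥0∞) = 2 * d := by push_cast; ring
        rw [h4, ENNReal.mul_inv_cancel hd0 hdt]
      have h5 := prob_compl_eq_zero_iff (μ := P.map (stp S p))
        (Finset.univ.image (vec : Fin d × Bool → Fin d → ℤ)).measurableSet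
      have h6 := h5.2 h2
      refine measure_mono_null ?_ h6
      intro y hy
      rw [Set.mem_singleton_iff] at hy
      subst hy
      intro h7
      apply hx
      simp only [Finset.coe_image, Finset.coe_univ, Set.image_univ] at h7
      exact h7
  refine Measure.ext_of_singleton fun x => ?_
  rw [hval, hval]

/-- the walks from the steps -/
def wlk (N d : ℕ) (δ : Fin N × ℕ → Fin d → ℤ) (i : Fin N) (n : ℕ) : Fin d → ℤ := ∑ j ∈ Finset.range n, δ (i, j)

theorem wlk_meas (N d : ℕ) : Measurable (wlk N d) := by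
  unfold wlk
  refine measurable_pi_iff.2 fun i => measurable_pi_iff.2 fun n => ?_
  exact Finset.measurable_sum _ fun j _ => measurable_pi_apply (i, j)

theorem wlk_eq (hS : Walks P S) (ω : Ω) : (fun i n => S i n ω) = wlk N d (fun p => stp S p ω) := by
  funext i n
  unfold wlk stp
  rw [Finset.sum_range_sub (fun j => S i j ω) n, hS.start, sub_zero]

omit [MeasurableSpace Ω] in
theorem wlk_shift (k : Fin N → ℕ) (ω : Ω) : (fun i n => S i (k i + n) ω - S i (k i) ω) =
    wlk N d (fun p => stp S (p.1, k p.1 + p.2) ω) := by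
  funext i n
  unfold wlk stp
  have := Finset.sum_range_sub (fun j => S i (k i + j) ω) n
  simp only [add_zero] at this
  exact this.symm

/-- the steps and the shifted steps have the same law -/
theorem shift_law (hd : 1 ≤ d) [IsProbabilityMeasure P] (hS : Walks P S) (k : Fin N → ℕ)
    {G : (Fin N × ℕ → Fin d → ℤ) → ℝ≥0∞} (hG : Measurable G) :
    ∫⁻ ω, G (fun p => stp S (p.1, k p.1 + p.2) ω) ∂P = ∫⁻ ω, G (fun p => stp S p ω) ∂P := by
  have hinj : Function.Injective (fun p : Fin N × ℕ => (p.1, k p.1 + p.2)) := by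
    rintro ⟨i, n⟩ ⟨j, m⟩ h
    simp only [Prod.mk.injEq] at h
    obtain ⟨h1, h2⟩ := h
    subst h1
    simp only [Prod.mk.injEq, true_and]
    omega
  have hind : iIndepFun (fun p : Fin N × ℕ => stp S p) P := hS.indep
  have h1 := hind.map_fun_eq_infinitePi_map (fun p => stp_meas hS p)
  have h2 := (hind.precomp hinj).map_fun_eq_infinitePi_map (fun p => stp_meas hS _)
  have hm1 : Measurable (fun ω (p : Fin N × ℕ) => stp S p ω) := measurable_pi_iff.2 fun p => stp_meas hS p
  have hm2 : Measurable (fun ω (p : Fin N × ℕ) => stp S (p.1, k p.1 + p.2) ω) :=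
    measurable_pi_iff.2 fun p => stp_meas hS _
  rw [← lintegral_map hG hm1, ← lintegral_map hG hm2]
  have h3 : P.map (fun ω (p : Fin N × ℕ) => stp S (p.1, k p.1 + p.2) ω) =
      P.map (fun ω (p : Fin N × ℕ) => stp S p ω) := by
    rw [h1]
    refine Eq.trans h2 ?_
    congr 1
    funext p
    exact stp_law hd hS _ _
  rw [h3]

/-- the past and the future are independent -/
theorem past_future (hS : Walks P S) (k : Fin N → ℕ) :
    IndepFun (fun ω => ∑ i, S i (k i) ω) (fun ω (p : Fin N × ℕ) => stp S (p.1, k p.1 + p.2) ω) P := by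
  have hind : iIndepFun (fun p : Fin N × ℕ => stp S p) P := hS.indep
  obtain ⟨m, hm⟩ : ∃ m : Fin N × ℕ → MeasurableSpace Ω, m = fun p => MeasurableSpace.comap (stp S p) inferInstance :=
    ⟨_, rfl⟩
  have hmle : ∀ p, m p ≤ (inferInstance : MeasurableSpace Ω) := by
    intro p
    rw [hm]
    exact (stp_meas hS p).comap_le
  have hI : iIndep m P := by
    rw [hm]
    exact hind
  obtain ⟨U, hU⟩ : ∃ U : Set (Fin N × ℕ), U = {p | p.2 < k p.1} := ⟨_, rfl⟩
  have hdis : Disjoint U Uᶜ := disjoint_compl_right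
  have h1 := indep_iSup_of_disjoint hmle hI hdis
  refine indep_of_indep_of_le_left (indep_of_indep_of_le_right h1 ?_) ?_
  · -- the future
    rw [MeasurableSpace.pi, MeasurableSpace.comap_iSup]
    refine iSup_le fun p => ?_
    rw [MeasurableSpace.comap_comp]
    have h2 : m (p.1, k p.1 + p.2) ≤ ⨆ p ∈ Uᶜ, m p := by
      refine le_iSup₂_of_le (p.1, k p.1 + p.2) ?_ le_rfl
      rw [hU]
      simp
    refine le_trans (le_of_eq ?_) h2
    rw [hm]
    rfl
  · have : Measurable[⨆ p ∈ U, m p] (fun ω => ∑ i, S i (k i) ω) := by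
      have h3 : (fun ω => ∑ i, S i (k i) ω) = fun ω => ∑ i, ∑ j ∈ Finset.range (k i), stp S (i, j) ω := by
        funext ω
        refine Finset.sum_congr rfl fun i _ => ?_
        have := congrFun (congrFun (wlk_eq hS ω) i) (k i)
        exact this
      rw [h3]
      refine Finset.measurable_sum _ fun i _ => Finset.measurable_sum _ fun j hj => ?_
      have h2 : m (i, j) ≤ ⨆ p ∈ U, m p := by
        refine le_iSup₂_of_le (i, j) ?_ le_rfl
        rw [hU]
        exact Finset.mem_range.1 hj
      refine Measurable.mono ?_ h2 le_rfl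
      rw [hm]
      exact comap_measurable _
    exact this.comap_le

end

theorem t_MK (h : S_LAW.{u}) : S_MK.{u} := by
  classical
  intro N d hd Ω _ P _ S hS k F hF
  have hX : Measurable (fun ω => ∑ i, S i (k i) ω) := meas_sum hS k
  have hm2 : Measurable (fun ω (p : Fin N × ℕ) => stp S (p.1, k p.1 + p.2) ω) :=
    measurable_pi_iff.2 fun p => stp_meas hS _
  obtain ⟨G, hG⟩ : ∃ G : (Fin d → ℤ) → (Fin N × ℕ → Fin d → ℤ) → ℝ≥0∞, G = fun y δ => F y (wlk N d δ) := ⟨_, rfl⟩
  have hGm : ∀ y, Measurable (G y) := by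
    intro y
    rw [hG]
    exact (hF y).comp (wlk_meas N d)
  have h1 : ∀ ω, F (∑ i, S i (k i) ω) (fun i n => S i (k i + n) ω - S i (k i) ω) =
      ∑' y : Fin d → ℤ, (({y} : Set (Fin d → ℤ)).indicator (fun _ => (1 : ℝ≥0∞)) (∑ i, S i (k i) ω)) *
        G y (fun p => stp S (p.1, k p.1 + p.2) ω) := by
    intro ω
    rw [tsum_eq_single (∑ i, S i (k i) ω)]
    · rw [Set.indicator_of_mem (Set.mem_singleton _), one_mul, hG, wlk_shift]
    · intro y hy
      rw [Set.indicator_of_notMem (fun h => hy (Set.mem_singleton_iff.1 h).symm), zero_mul]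
  simp only [h1]
  rw [lintegral_tsum]
  · refine tsum_congr fun y => ?_
    have hφ : Measurable (({y} : Set (Fin d → ℤ)).indicator (fun _ => (1 : ℝ≥0∞))) :=
      measurable_const.indicator (measurableSet_singleton y)
    have hind := (past_future hS k).comp hφ (hGm y)
    have h2 := lintegral_mul_eq_lintegral_mul_lintegral_of_indepFun (hφ.comp hX) ((hGm y).comp hm2) hind
    have h3 : ∫⁻ ω, ({y} : Set (Fin d → ℤ)).indicator (fun _ => (1 : ℝ≥0∞)) (∑ i, S i (k i) ω) ∂P =
        q d (∑ i, k i) y := by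
      rw [← h N d hd Ω P S hS k y]
      have h4 : MeasurableSet {ω | ∑ i, S i (k i) ω = y} := hX (measurableSet_singleton y)
      rw [← lintegral_indicator_one h4]
      refine lintegral_congr fun ω => ?_
      simp only [Set.indicator_apply, Set.mem_singleton_iff, Set.mem_ofPred_eq, Pi.one_apply]
    have h5 : ∫⁻ ω, G y (fun p => stp S (p.1, k p.1 + p.2) ω) ∂P = ∫⁻ ω, F y (fun i n => S i n ω) ∂P := by
      rw [shift_law hd hS k (hGm y)]
      refine lintegral_congr fun ω => ?_
      rw [hG, wlk_eq hS ω]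
    rw [← h3, ← h5]
    exact h2
  · intro y
    have hφ : Measurable (({y} : Set (Fin d → ℤ)).indicator (fun _ => (1 : ℝ≥0∞))) :=
      measurable_const.indicator (measurableSet_singleton y)
    exact ((hφ.comp hX).mul ((hGm y).comp hm2)).aemeasurable

end Pool.Agent.Q79.MR
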