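import Pool.Agent.Q79.MR.UL

/-!
# Project MR of helper88: job PAIR (the pairs of hits at large distance)
-/

set_option autoImplicit false

open MeasureTheory ProbabilityTheory Filter
open scoped Topology ENNReal

universe u

namespace Pool.Agent.Q79.MR

open Pool.Agent.Q88.MR

/-- the value of a pair -/
theorem pair_value (h : S_MK.{u}) (h1 : S_IND.{u}) (h2 : S_LAW.{u}) {N d : ℕ} (hd : 1 ≤ d) {Ω : Type u}
    [MeasurableSpace Ω] {P : Measure Ω} [IsProbabilityMeasure P] {S : Fin N → ℕ → Ω → Fin d → ℤ}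
    (hS : Walks P S) (A : Finset (Fin d → ℤ)) (z : Fin d → ℤ) (k u v : Fin N → ℕ)
    (huv : ∀ i, u i = 0 ∨ v i = 0) :
    P {ω | z + ∑ i, S i (k i + u i) ω ∈ A ∧ z + ∑ i, S i (k i + v i) ω ∈ A} =
      ∑' y, q d (∑ i, k i) (y - z) * ((∑ a ∈ A, q d (∑ i, u i) (a - y)) * ∑ a ∈ A, q d (∑ i, v i) (a - y)) := by
  classical
  obtain ⟨F, hF⟩ : ∃ F : (Fin d → ℤ) → (Fin N → ℕ → Fin d → ℤ) → ℝ≥0∞, F = fun y π =>
      ({π : Fin N → ℕ → Fin d → ℤ | (z + y) + ∑ i, π i (u i) ∈ A ∧ (z + y) + ∑ i, π i (v i) ∈ A}).indicator 1 π :=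
    ⟨_, rfl⟩
  have hFm : ∀ y, Measurable (F y) := by
    intro y
    rw [hF]
    refine measurable_one.indicator ?_
    have hw : ∀ w : Fin N → ℕ, MeasurableSet {π : Fin N → ℕ → Fin d → ℤ | (z + y) + ∑ i, π i (w i) ∈ A} := by
      intro w
      have hm : Measurable (fun π : Fin N → ℕ → Fin d → ℤ => (z + y) + ∑ i, π i (w i)) := by
        refine Measurable.const_add ?_ _
        refine Finset.measurable_sum _ fun i _ => ?_
        exact (measurable_pi_apply (w i)).comp (measurable_pi_apply i)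
      exact hm (A : Set (Fin d → ℤ)).to_countable.measurableSet
    exact (hw u).inter (hw v)
  have hmk := h N d hd Ω P S hS k F hFm
  -- the left side
  have hms : ∀ w : Fin N → ℕ, MeasurableSet {ω | z + ∑ i, S i (w i) ω ∈ A} := fun w =>
    meas_mem hS (A : Set (Fin d → ℤ)) z w
  have hms2 : ∀ (y : Fin d → ℤ) (w : Fin N → ℕ), MeasurableSet {ω | (z + y) + ∑ i, S i (w i) ω ∈ A} := fun y w =>
    meas_mem hS (A : Set (Fin d → ℤ)) (z + y) w
  have e1 : ∫⁻ ω, F (∑ i, S i (k i) ω) (fun i n => S i (k i + n) ω - S i (k i) ω) ∂P =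
      P {ω | z + ∑ i, S i (k i + u i) ω ∈ A ∧ z + ∑ i, S i (k i + v i) ω ∈ A} := by
    have hms3 : MeasurableSet {ω | z + ∑ i, S i (k i + u i) ω ∈ A ∧ z + ∑ i, S i (k i + v i) ω ∈ A} :=
      (hms (fun i => k i + u i)).inter (hms (fun i => k i + v i))
    rw [← lintegral_indicator_one hms3]
    refine lintegral_congr fun ω => ?_
    rw [hF]
    simp only [Set.indicator_apply, Set.mem_ofPred_eq, Pi.one_apply]
    have e2 : ∀ w : Fin N → ℕ, z + ∑ i, S i (k i) ω + ∑ i, (S i (k i + w i) ω - S i (k i) ω) =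
        z + ∑ i, S i (k i + w i) ω := by
      intro w
      rw [Finset.sum_sub_distrib]
      abel
    rw [e2, e2]
  rw [← e1, hmk]
  -- the right side
  have e3 : ∀ y, ∫⁻ ω, F y (fun i n => S i n ω) ∂P =
      (∑ a ∈ A, q d (∑ i, u i) (a - (z + y))) * ∑ a ∈ A, q d (∑ i, v i) (a - (z + y)) := by
    intro y
    have hms3 : MeasurableSet {ω | (z + y) + ∑ i, S i (u i) ω ∈ A ∧ (z + y) + ∑ i, S i (v i) ω ∈ A} :=
      (hms2 y u).inter (hms2 y v)
    have e4 : ∫⁻ ω, F y (fun i n => S i n ω) ∂P =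
        P {ω | (z + y) + ∑ i, S i (u i) ω ∈ A ∧ (z + y) + ∑ i, S i (v i) ω ∈ A} := by
      rw [← lintegral_indicator_one hms3]
      refine lintegral_congr fun ω => ?_
      rw [hF]
      simp only [Set.indicator_apply, Set.mem_ofPred_eq, Pi.one_apply]
    have e5 := h1 N d hd Ω P S hS u v huv {x | (z + y) + x ∈ A} {x | (z + y) + x ∈ A}
    simp only [Set.mem_ofPred_eq] at e5
    rw [e4, e5, law_mem h2 hd hS, law_mem h2 hd hS]
  simp only [e3]
  rw [← (Equiv.subRight z).tsum_eq (fun y => q d (∑ i, k i) y *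
    ((∑ a ∈ A, q d (∑ i, u i) (a - (z + y))) * ∑ a ∈ A, q d (∑ i, v i) (a - (z + y))))]
  refine tsum_congr fun y => ?_
  simp only [Equiv.subRight_apply]
  have e6 : z + (y - z) = y := by abel
  rw [e6]

theorem t_PAIR (h : S_MK.{u}) (h1 : S_IND.{u}) (h2 : S_LAW.{u}) : S_PAIR.{u} := by
  classical
  intro N d hd Ω _ P _ S hS T A z
  -- the function on triples
  obtain ⟨W, hW⟩ : ∃ W : ((Fin N → ℕ) × (Fin N → ℕ)) × (Fin N → ℕ) → ℝ≥0∞, W = fun p =>
      if (∀ i, p.1.2 i = 0 ∨ p.2 i = 0) ∧ ∃ i, T < p.1.2 i + p.2 i then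
        ∑' y, q d (∑ i, p.1.1 i) (y - z) *
          ((∑ a ∈ A, q d (∑ i, p.1.2 i) (a - y)) * ∑ a ∈ A, q d (∑ i, p.2 i) (a - y)) else 0 := ⟨_, rfl⟩
  obtain ⟨φ, hφ⟩ : ∃ φ : (Fin N → ℕ) × (Fin N → ℕ) → ((Fin N → ℕ) × (Fin N → ℕ)) × (Fin N → ℕ), φ = fun p =>
      ((fun i => min (p.1 i) (p.2 i), fun i => p.1 i - min (p.1 i) (p.2 i)),
        fun i => p.2 i - min (p.1 i) (p.2 i)) := ⟨_, rfl⟩
  have hinj : Function.Injective φ := by
    rintro ⟨n, m⟩ ⟨n', m'⟩ hnm
    rw [hφ] at hnm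
    simp only [Prod.mk.injEq] at hnm
    obtain ⟨⟨a, b⟩, c⟩ := hnm
    have e1 : n = n' := by
      funext i
      have h3 := congrFun a i
      have h4 := congrFun b i
      omega
    have e2 : m = m' := by
      funext i
      have h3 := congrFun a i
      have h4 := congrFun c i
      omega
    rw [e1, e2]
  have e1 : (∑' n : Fin N → ℕ, ∑' m : Fin N → ℕ,
      if far T n m then P {ω | z + ∑ i, S i (n i) ω ∈ A ∧ z + ∑ i, S i (m i) ω ∈ A} else 0) =
      ∑' p, W (φ p) := by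
    rw [ENNReal.tsum_prod']
    refine tsum_congr fun n => tsum_congr fun m => ?_
    rw [hW, hφ]
    simp only
    have hfar : far T n m ↔ (∀ i, n i - min (n i) (m i) = 0 ∨ m i - min (n i) (m i) = 0) ∧
        ∃ i, T < n i - min (n i) (m i) + (m i - min (n i) (m i)) := by
      unfold far
      constructor
      · rintro ⟨i, hi⟩
        exact ⟨fun i => by omega, i, by omega⟩
      · rintro ⟨-, i, hi⟩
        exact ⟨i, by omega⟩
    by_cases hf : far T n m
    · rw [if_pos hf, if_pos (hfar.1 hf)]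
      rw [← pair_value h h1 h2 hd hS A z (fun i => min (n i) (m i)) (fun i => n i - min (n i) (m i))
        (fun i => m i - min (n i) (m i)) (hfar.1 hf).1]
      have e2 : ∀ i, min (n i) (m i) + (n i - min (n i) (m i)) = n i := fun i => by omega
      have e3 : ∀ i, min (n i) (m i) + (m i - min (n i) (m i)) = m i := fun i => by omega
      simp only [e2, e3]
    · rw [if_neg hf, if_neg (fun h => hf (hfar.2 h))]
  have e4 : ∑' p, W (φ p) ≤ ∑' p, W p := ENNReal.tsum_comp_le_tsum_of_injective hinj W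
  have e5 : ∑' p, W p = ∑' y, GN d N (y - z) * HT N T A y := by
    rw [ENNReal.tsum_prod', ENNReal.tsum_prod']
    have e6 : ∀ (k u v : Fin N → ℕ), W ((k, u), v) = ∑' y, q d (∑ i, k i) (y - z) *
        (if (∀ i, u i = 0 ∨ v i = 0) ∧ ∃ i, T < u i + v i then
          (∑ a ∈ A, q d (∑ i, u i) (a - y)) * ∑ a ∈ A, q d (∑ i, v i) (a - y) else 0) := by
      intro k u v
      rw [hW]
      simp only
      by_cases hc : (∀ i, u i = 0 ∨ v i = 0) ∧ ∃ i, T < u i + v i
      · simp only [if_pos hc]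
      · simp only [if_neg hc, mul_zero, tsum_zero]
    simp only [e6]
    -- exchange the sums
    calc ∑' (k : Fin N → ℕ) (u : Fin N → ℕ) (v : Fin N → ℕ) (y : Fin d → ℤ), q d (∑ i, k i) (y - z) *
        (if (∀ i, u i = 0 ∨ v i = 0) ∧ ∃ i, T < u i + v i then
          (∑ a ∈ A, q d (∑ i, u i) (a - y)) * ∑ a ∈ A, q d (∑ i, v i) (a - y) else 0)
        = ∑' (k : Fin N → ℕ) (y : Fin d → ℤ), q d (∑ i, k i) (y - z) * HT N T A y := by
          refine tsum_congr fun k => ?_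
          have e7 : ∀ u : Fin N → ℕ, ∑' (v : Fin N → ℕ) (y : Fin d → ℤ), q d (∑ i, k i) (y - z) *
            (if (∀ i, u i = 0 ∨ v i = 0) ∧ ∃ i, T < u i + v i then
              (∑ a ∈ A, q d (∑ i, u i) (a - y)) * ∑ a ∈ A, q d (∑ i, v i) (a - y) else 0) =
            ∑' (y : Fin d → ℤ) (v : Fin N → ℕ), q d (∑ i, k i) (y - z) *
            (if (∀ i, u i = 0 ∨ v i = 0) ∧ ∃ i, T < u i + v i then
              (∑ a ∈ A, q d (∑ i, u i) (a - y)) * ∑ a ∈ A, q d (∑ i, v i) (a - y) else 0) :=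
            fun u => ENNReal.tsum_comm
          simp only [e7]
          rw [ENNReal.tsum_comm]
          refine tsum_congr fun y => ?_
          simp only [ENNReal.tsum_mul_left]
          rfl
      _ = ∑' (y : Fin d → ℤ) (k : Fin N → ℕ), q d (∑ i, k i) (y - z) * HT N T A y := ENNReal.tsum_comm
      _ = _ := by
          refine tsum_congr fun y => ?_
          rw [ENNReal.tsum_mul_right]
          rfl
  have e8 := e1.le.trans (e4.trans e5.le)
  convert e8

end Pool.Agent.Q79.MR
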