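import Pool.Agent.Q88.MR.Stm
import Pool.Agent.W374.SCH.GI
import Pool.Agent.W557.SCH.FR

/-!
# Project MR of helper88: job POI (the walk with a Poisson number of steps)
-/

set_option autoImplicit false

open MeasureTheory ProbabilityTheory Filter
open scoped Topology ENNReal

namespace Pool.Agent.Q79.MR

open Pool.Agent.Q88.MR
open Pool.Agent.W793.SCH (lam box)
open Pool.Agent.W374.SCH (lam_nonneg lam_le continuous_lam prod_hk)

noncomputable section

theorem hk_eq (t : ℝ) (n : ℤ) : Pool.Agent.Q88.MR.hk t n = Pool.Agent.W793.SCH.hk t n := rfl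

theorem q_ne_top {d : ℕ} (hd : 1 ≤ d) (n : ℕ) (x : Fin d → ℤ) : q d n x ≠ ⊤ := by
  induction n generalizing x with
  | zero =>
    unfold q
    split_ifs <;> simp
  | succ n ih =>
    unfold q
    refine ENNReal.mul_ne_top ?_ ?_
    · rw [Ne, ENNReal.inv_eq_top]
      have : (d : ℝ≥0∞) ≠ 0 := by
        have : d ≠ 0 := by omega
        exact_mod_cast this
      exact mul_ne_zero (by norm_num) this
    · exact (ENNReal.sum_lt_top.2 fun s _ => (ih _).lt_top).ne

/-- the transition probabilities as real numbers -/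
def rq (d n : ℕ) (x : Fin d → ℤ) : ℝ := (q d n x).toReal

theorem rq_nonneg (d n : ℕ) (x : Fin d → ℤ) : 0 ≤ rq d n x := ENNReal.toReal_nonneg

theorem rq_succ {d : ℕ} (hd : 1 ≤ d) (n : ℕ) (x : Fin d → ℤ) :
    rq d (n + 1) x = 1 / (2 * d : ℝ) * ∑ i, (rq d n (x + Pi.single i 1) + rq d n (x - Pi.single i 1)) := by
  have h1 : rq d (n + 1) x = ((2 * d : ℝ≥0∞)⁻¹).toReal * ∑ s : Fin d × Bool, rq d n (x - vec s) := by
    unfold rq
    rw [q, ENNReal.toReal_mul, ENNReal.toReal_sum (fun s _ => q_ne_top hd n _)]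
  rw [h1, ENNReal.toReal_inv, ENNReal.toReal_mul, ENNReal.toReal_ofNat, ENNReal.toReal_natCast, one_div,
    Fintype.sum_prod_type]
  congr 1
  refine Finset.sum_congr rfl fun i _ => ?_
  rw [Fintype.sum_bool]
  simp only [vec, if_true]
  rw [add_comm]
  simp

/-- the integrand -/
def ffq (d k : ℕ) (z : Fin d → ℤ) (θ : Fin d → ℝ) : ℝ :=
  (1 - lam θ / (2 * d)) ^ k * Real.cos (∑ i, θ i * z i)

def JJq (d k : ℕ) (z : Fin d → ℤ) : ℝ := ∫ θ in box d, ffq d k z θ

lemma ffq_cont (d k : ℕ) (z : Fin d → ℤ) : Continuous (ffq d k z) := by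
  unfold ffq lam
  fun_prop

lemma ffq_int (d k : ℕ) (z : Fin d → ℤ) : IntegrableOn (ffq d k z) (box d) :=
  (ffq_cont d k z).continuousOn.integrableOn_compact (Pool.Agent.W557.SCH.box_compact d)

lemma pointq (d k : ℕ) (hd : 1 ≤ d) (z : Fin d → ℤ) (θ : Fin d → ℝ) :
    ffq d (k + 1) z θ = 1 / (2 * d : ℝ) *
      ∑ i, (ffq d k (z + Pi.single i 1) θ + ffq d k (z - Pi.single i 1) θ) := by
  have hd0 : (d : ℝ) ≠ 0 := by positivity
  unfold ffq
  simp only [Pool.Agent.W557.SCH.sum_add, Pool.Agent.W557.SCH.sum_sub]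
  have h1 : ∀ i : Fin d, (1 - lam θ / (2 * d)) ^ k * Real.cos ((∑ i, θ i * z i) + θ i)
      + (1 - lam θ / (2 * d)) ^ k * Real.cos ((∑ i, θ i * z i) - θ i)
      = ((1 - lam θ / (2 * d)) ^ k * Real.cos (∑ i, θ i * z i)) * (2 * Real.cos (θ i)) := by
    intro i
    rw [Real.cos_add, Real.cos_sub]
    ring
  simp only [h1]
  rw [← Finset.mul_sum, pow_succ]
  have h2 : lam θ = 2 * d - ∑ i, 2 * Real.cos (θ i) := by
    unfold lam
    rw [Finset.sum_sub_distrib]
    simp
    ring
  have h3 : 1 - lam θ / (2 * d) = 1 / (2 * d : ℝ) * ∑ i, 2 * Real.cos (θ i) := by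
    rw [h2]
    field_simp
    ring
  calc (1 - lam θ / (2 * d)) ^ k * (1 - lam θ / (2 * d)) * Real.cos (∑ i, θ i * z i)
      = (1 - lam θ / (2 * d)) ^ k * (1 / (2 * d : ℝ) * ∑ i, 2 * Real.cos (θ i))
        * Real.cos (∑ i, θ i * z i) := by rw [← h3]
    _ = _ := by ring

lemma JJq_succ (d k : ℕ) (hd : 1 ≤ d) (z : Fin d → ℤ) :
    JJq d (k + 1) z = 1 / (2 * d : ℝ) *
      ∑ i, (JJq d k (z + Pi.single i 1) + JJq d k (z - Pi.single i 1)) := by
  unfold JJq
  have h0 : ∫ θ in box d, ffq d (k + 1) z θ = ∫ θ in box d, (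
      1 / (2 * d : ℝ) * ∑ i, (ffq d k (z + Pi.single i 1) θ + ffq d k (z - Pi.single i 1) θ)) :=
    integral_congr_ae (Filter.Eventually.of_forall fun θ => pointq d k hd z θ)
  have i2 : ∀ i : Fin d, Integrable (fun θ => ffq d k (z + Pi.single i 1) θ
      + ffq d k (z - Pi.single i 1) θ) (volume.restrict (box d)) :=
    fun i => (ffq_int d k _).add (ffq_int d k _)
  rw [h0, integral_const_mul, integral_finsetSum _ fun i _ => i2 i]
  congr 1
  refine Finset.sum_congr rfl fun i _ => ?_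
  exact integral_add (ffq_int d k _) (ffq_int d k _)

/-- the Fourier representation -/
theorem rq_fourier {d : ℕ} (hd : 1 ≤ d) (k : ℕ) (z : Fin d → ℤ) : rq d k z = 1 / (2 * Real.pi) ^ d * JJq d k z := by
  have hp : (2 * Real.pi) ^ d ≠ 0 := pow_ne_zero _ (by positivity)
  induction k generalizing z with
  | zero =>
    have h1 : JJq d 0 z = Pool.Agent.W557.SCH.JJ d 0 z := by
      unfold JJq Pool.Agent.W557.SCH.JJ ffq Pool.Agent.W557.SCH.ff
      simp only [pow_zero]
    rw [h1, Pool.Agent.W557.SCH.base]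
    unfold rq q
    split_ifs
    · simp
    · simp
  | succ k ih =>
    rw [rq_succ hd, JJq_succ d k hd z]
    simp only [ih]
    rw [Finset.mul_sum, Finset.mul_sum, Finset.mul_sum]
    refine Finset.sum_congr rfl fun i _ => ?_
    ring

/-- The weights. -/
def wtq (d k : ℕ) (t : ℝ) : ℝ := Real.exp (-(2 * d * t)) * (2 * d * t) ^ k / k.factorial

theorem wtq_nonneg (d k : ℕ) {t : ℝ} (ht : 0 ≤ t) : 0 ≤ wtq d k t := by
  unfold wtq; positivity

theorem hasSum_thetaq (d : ℕ) (hd : 1 ≤ d) (t : ℝ) (θ : Fin d → ℝ) :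
    HasSum (fun k : ℕ => wtq d k t * (1 - lam θ / (2 * d)) ^ k) (Real.exp (-(t * lam θ))) := by
  have hd' : (d : ℝ) ≠ 0 := by positivity
  have h := (NormedSpace.expSeries_div_hasSum_exp (2 * d * t * (1 - lam θ / (2 * d)))).mul_left
    (Real.exp (-(2 * d * t)))
  rw [← Real.exp_eq_exp_ℝ, ← Real.exp_add] at h
  have e : -(2 * d * t) + 2 * d * t * (1 - lam θ / (2 * d)) = -(t * lam θ) := by
    field_simp; ring
  rw [e] at h
  refine h.congr_fun fun k => ?_
  unfold wtq
  rw [mul_pow (2 * (d : ℝ) * t)]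
  ring

theorem hasSum_prod_hkq (d : ℕ) (hd : 1 ≤ d) (z : Fin d → ℤ) {t : ℝ} (ht : 0 ≤ t) :
    HasSum (fun k : ℕ => wtq d k t * rq d k z) (∏ i, Pool.Agent.W793.SCH.hk t (z i)) := by
  have hd0 : (0 : ℝ) < d := by exact_mod_cast hd
  have hbox : IsCompact (box d) := isCompact_univ_pi fun _ => isCompact_Icc
  have hcont : ∀ k : ℕ, Continuous (fun θ : Fin d → ℝ =>
      wtq d k t * (1 - lam θ / (2 * d)) ^ k * Real.cos (∑ i, θ i * z i)) := by
    intro k
    have := @continuous_lam d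
    fun_prop
  have hab : ∀ θ : Fin d → ℝ, |1 - lam θ / (2 * d)| ≤ 1 := by
    intro θ
    have h1 : 0 ≤ lam θ / (2 * d) := div_nonneg (lam_nonneg θ) (by positivity)
    have h2 : lam θ / (2 * d) ≤ 2 := by
      rw [div_le_iff₀ (by positivity)]
      have := lam_le θ
      linarith
    rw [abs_le]; constructor <;> linarith
  have hnorm : ∀ (k : ℕ) (θ : Fin d → ℝ),
      ‖wtq d k t * (1 - lam θ / (2 * d)) ^ k * Real.cos (∑ i, θ i * z i)‖ ≤ wtq d k t := by
    intro k θ
    rw [norm_mul, norm_mul, Real.norm_eq_abs, Real.norm_eq_abs, Real.norm_eq_abs, abs_pow,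
      abs_of_nonneg (wtq_nonneg d k ht)]
    have h1 : |1 - lam θ / (2 * d)| ^ k ≤ 1 := pow_le_one₀ (abs_nonneg _) (hab θ)
    have h2 := Real.abs_cos_le_one (∑ i, θ i * z i)
    calc _ ≤ wtq d k t * 1 * 1 := by
          gcongr
          · exact mul_nonneg (wtq_nonneg d k ht) zero_le_one
          · exact wtq_nonneg d k ht
      _ = _ := by ring
  have hsw : Summable (fun k : ℕ => wtq d k t) := by
    have h := (hasSum_thetaq d hd t (fun _ => 0)).summable
    refine h.congr fun k => ?_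
    simp [lam]
  have hint : ∀ k : ℕ, Integrable (fun θ : Fin d → ℝ =>
      wtq d k t * (1 - lam θ / (2 * d)) ^ k * Real.cos (∑ i, θ i * z i))
      (volume.restrict (box d)) := fun k => (hcont k).continuousOn.integrableOn_compact hbox
  have hsum : Summable (fun k : ℕ => ∫ θ in box d,
      ‖wtq d k t * (1 - lam θ / (2 * d)) ^ k * Real.cos (∑ i, θ i * z i)‖) := by
    refine Summable.of_nonneg_of_le (fun k => integral_nonneg fun _ => norm_nonneg _) (fun k => ?_)
      (hsw.mul_left (volume.real (box d)))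
    have := hbox.measure_lt_top (μ := (volume : Measure (Fin d → ℝ)))
    calc (∫ θ in box d, ‖wtq d k t * (1 - lam θ / (2 * d)) ^ k * Real.cos (∑ i, θ i * z i)‖)
        ≤ ∫ _θ in box d, wtq d k t := by
          refine setIntegral_mono (hint k).norm (integrableOn_const this.ne) fun θ => hnorm k θ
      _ = volume.real (box d) * wtq d k t := by
          rw [setIntegral_const, smul_eq_mul]
  have h := hasSum_integral_of_summable_integral_norm hint hsum
  have h' := h.mul_left (1 / (2 * Real.pi) ^ d)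
  have e1 : (fun k : ℕ => wtq d k t * rq d k z) = fun k : ℕ => 1 / (2 * Real.pi) ^ d *
      ∫ θ in box d, wtq d k t * (1 - lam θ / (2 * d)) ^ k * Real.cos (∑ i, θ i * z i) := by
    funext k
    rw [rq_fourier hd, mul_left_comm]
    unfold JJq ffq
    rw [← integral_const_mul]
    simp_rw [mul_assoc]
  have e2 : ∏ i, Pool.Agent.W793.SCH.hk t (z i) = 1 / (2 * Real.pi) ^ d * ∫ θ in box d, ∑' k : ℕ,
      wtq d k t * (1 - lam θ / (2 * d)) ^ k * Real.cos (∑ i, θ i * z i) := by
    rw [prod_hk]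
    congr 1
    refine integral_congr_ae (Filter.Eventually.of_forall fun θ => ?_)
    exact ((hasSum_thetaq d hd t θ).mul_right (Real.cos (∑ i, θ i * z i))).tsum_eq.symm
  rw [e1, e2]
  exact h'

theorem t_POI : S_POI := by
  intro d hd t ht z
  exact hasSum_prod_hkq d hd z ht

end

end Pool.Agent.Q79.MR
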