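import Pool.Agent.Q88.MR.Stm

/-!
# Project MR of helper88: job UL (the two inequalities for the hitting probability)
-/

set_option autoImplicit false

open MeasureTheory ProbabilityTheory Filter
open scoped Topology ENNReal

universe u

namespace Pool.Agent.Q79.MR

open Pool.Agent.Q88.MR

section
variable {N d : ℕ} {Ω : Type u} [MeasurableSpace Ω] {P : Measure Ω} {S : Fin N → ℕ → Ω → Fin d → ℤ}

theorem meas_sum (hS : Walks P S) (n : Fin N → ℕ) : Measurable (fun ω => ∑ i, S i (n i) ω) :=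
  Finset.measurable_sum _ fun i _ => hS.meas i (n i)

theorem meas_mem (hS : Walks P S) (A : Set (Fin d → ℤ)) (z : Fin d → ℤ) (n : Fin N → ℕ) :
    MeasurableSet {ω | z + ∑ i, S i (n i) ω ∈ A} :=
  ((meas_sum hS n).const_add z) (Set.to_countable A).measurableSet

theorem law_mem (h4 : S_LAW.{u}) (hd : 1 ≤ d) [IsProbabilityMeasure P] (hS : Walks P S)
    (A : Finset (Fin d → ℤ)) (z : Fin d → ℤ) (n : Fin N → ℕ) :
    P {ω | z + ∑ i, S i (n i) ω ∈ A} = ∑ a ∈ A, q d (∑ i, n i) (a - z) := by
  have h1 : {ω | z + ∑ i, S i (n i) ω ∈ A} = ⋃ a ∈ A, {ω | ∑ i, S i (n i) ω = a - z} := by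
    ext ω
    simp only [Set.mem_ofPred_eq, Set.mem_iUnion, exists_prop]
    constructor
    · intro h
      exact ⟨_, h, by abel⟩
    · rintro ⟨a, ha, h⟩
      rw [h]
      simpa using ha
  rw [h1, measure_biUnion_finset]
  · exact Finset.sum_congr rfl fun a _ => h4 N d hd Ω P S hS n (a - z)
  · intro a _ b _ hab
    rw [Function.onFun, Set.disjoint_left]
    intro ω ha hb
    simp only [Set.mem_ofPred_eq] at ha hb
    exact hab (sub_left_injective (ha.symm.trans hb))
  · intro a _
    exact (meas_sum hS n) (measurableSet_singleton (a - z))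

theorem meas_hit (hS : Walks P S) (A : Finset (Fin d → ℤ)) (z : Fin d → ℤ) (n : Fin N → ℕ) :
    Measurable (fun ω => hit A z (fun i j => S i j ω) n) := by
  unfold hit
  exact Measurable.ite (meas_mem hS (A : Set (Fin d → ℤ)) z n) measurable_const measurable_const

theorem meas_Zc (hS : Walks P S) (T : ℕ) (A : Finset (Fin d → ℤ)) (z : Fin d → ℤ) (n : Fin N → ℕ) :
    Measurable (fun ω => Zc T A z (fun i j => S i j ω) n) := by
  unfold Zc
  refine Measurable.tsum fun m => ?_
  by_cases h : ∀ i, n i ≤ m i + T ∧ m i ≤ n i + T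
  · simp only [if_pos h]
    exact meas_hit hS A z m
  · simp only [if_neg h]
    exact measurable_const

theorem hit_le (A : Finset (Fin d → ℤ)) (T : ℕ) (z : Fin d → ℤ) (π : Fin N → ℕ → Fin d → ℤ) (n : Fin N → ℕ) :
    hit A z π n * (Zc T A z π n)⁻¹ ≤ hit A z π n := by
  by_cases h : z + ∑ i, π i (n i) ∈ A
  · have h1 : hit A z π n = 1 := by unfold hit; rw [if_pos h]
    rw [h1, one_mul]
    have h2 : (1 : ℝ≥0∞) ≤ Zc T A z π n := by
      unfold Zc
      refine le_trans ?_ (ENNReal.le_tsum n)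
      rw [if_pos (fun i => ⟨by omega, by omega⟩), h1]
    exact ENNReal.inv_le_one.2 h2
  · have h1 : hit A z π n = 0 := by unfold hit; rw [if_neg h]
    rw [h1, zero_mul]

end

theorem t_UL (h1 : S_PW) (h2 : S_WIN.{u}) (h3 : S_PAIR.{u}) (h4 : S_LAW.{u}) : S_UL.{u} := by
  classical
  intro N d hd Ω _ P _ S hS T A z
  obtain ⟨g, hg⟩ : ∃ g : (Fin N → ℕ) → Ω → ℝ≥0∞, g = fun n ω =>
      hit A z (fun i j => S i j ω) n * (Zc T A z (fun i j => S i j ω) n)⁻¹ := ⟨_, rfl⟩
  have hgm : ∀ n, Measurable (g n) := by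
    intro n
    rw [hg]
    exact (meas_hit hS A z n).mul (meas_Zc hS T A z n).inv
  -- the event
  obtain ⟨E, hE⟩ : ∃ E : Set Ω, E = {ω | ∃ n : Fin N → ℕ, z + ∑ i, S i (n i) ω ∈ A} := ⟨_, rfl⟩
  have hEm : MeasurableSet E := by
    have : E = ⋃ n : Fin N → ℕ, {ω | z + ∑ i, S i (n i) ω ∈ A} := by
      rw [hE]; ext ω; simp
    rw [this]
    exact MeasurableSet.iUnion fun n => meas_mem hS (A : Set (Fin d → ℤ)) z n
  rw [← hE]
  -- the pointwise inequalities
  have hpw : ∀ ω, E.indicator 1 ω ≤ ∑' n, g n ω ∧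
      ∑' n, g n ω ≤ E.indicator 1 ω + ∑' n : Fin N → ℕ, ∑' m : Fin N → ℕ,
        if far T n m then
          ({ω | z + ∑ i, S i (n i) ω ∈ A ∧ z + ∑ i, S i (m i) ω ∈ A} : Set Ω).indicator 1 ω else 0 := by
    intro ω
    obtain ⟨H, hH⟩ : ∃ H : Set (Fin N → ℕ), H = {n | z + ∑ i, S i (n i) ω ∈ A} := ⟨_, rfl⟩
    have e1 : ∀ n, g n ω = if n ∈ H then (Zc T A z (fun i j => S i j ω) n)⁻¹ else 0 := by
      intro n
      rw [hg, hH]
      simp only [hit, Set.mem_ofPred_eq]
      split_ifs <;> simp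
    have e2 : (if H.Nonempty then (1 : ℝ≥0∞) else 0) = E.indicator 1 ω := by
      rw [Set.indicator_apply]
      have : H.Nonempty ↔ ω ∈ E := by rw [hH, hE]; rfl
      simp only [this, Pi.one_apply]
    have h := h1 N T H (fun n => Zc T A z (fun i j => S i j ω) n) (fun n => by
      unfold Zc hit
      refine tsum_congr fun m => ?_
      rw [hH]
      simp only [Set.mem_ofPred_eq]
      by_cases a : z + ∑ i, S i (m i) ω ∈ A <;> by_cases b : ∀ i, n i ≤ m i + T ∧ m i ≤ n i + T
      · rw [if_pos b, if_pos a, if_pos ⟨a, b⟩]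
      · rw [if_neg b, if_neg (fun h => b h.2)]
      · rw [if_pos b, if_neg a, if_neg (fun h => a h.1)]
      · rw [if_neg b, if_neg (fun h => b h.2)])
    rw [e2] at h
    simp only [e1]
    refine ⟨by convert h.1, le_trans (by convert h.2) ?_⟩
    refine le_of_eq ?_
    congr 1
    refine tsum_congr fun n => tsum_congr fun m => ?_
    rw [hH]
    simp only [Set.mem_ofPred_eq, Set.indicator_apply, Pi.one_apply]
    by_cases a : far T n m
    · rw [if_pos a]
      by_cases b : z + ∑ i, S i (n i) ω ∈ A ∧ z + ∑ i, S i (m i) ω ∈ A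
      · rw [if_pos b, if_pos ⟨b.1, b.2, a⟩]
      · rw [if_neg b, if_neg (fun h => b ⟨h.1, h.2.1⟩)]
    · rw [if_neg a, if_neg (fun h => a h.2.2)]
  -- integrate
  have hPE : ∫⁻ ω, E.indicator 1 ω ∂P = P E := lintegral_indicator_one hEm
  have hsum : ∫⁻ ω, ∑' n, g n ω ∂P = ∑' n, ∫⁻ ω, g n ω ∂P :=
    lintegral_tsum fun n => (hgm n).aemeasurable
  have hI1 : P E ≤ ∑' n, ∫⁻ ω, g n ω ∂P := by
    rw [← hPE, ← hsum]
    exact lintegral_mono fun ω => (hpw ω).1
  have hmm : ∀ n m : Fin N → ℕ, MeasurableSet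
      {ω | z + ∑ i, S i (n i) ω ∈ A ∧ z + ∑ i, S i (m i) ω ∈ A} := fun n m =>
    (meas_mem hS (A : Set (Fin d → ℤ)) z n).inter (meas_mem hS (A : Set (Fin d → ℤ)) z m)
  have hpm : ∀ n m : Fin N → ℕ, Measurable (fun ω => if far T n m then
      ({ω | z + ∑ i, S i (n i) ω ∈ A ∧ z + ∑ i, S i (m i) ω ∈ A} : Set Ω).indicator (1 : Ω → ℝ≥0∞) ω
        else 0) := by
    intro n m
    by_cases a : far T n m
    · simp only [if_pos a]
      exact measurable_one.indicator (hmm n m)
    · simp only [if_neg a]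
      exact measurable_const
  have hI2 : ∑' n, ∫⁻ ω, g n ω ∂P ≤ P E + ∑' y, GN d N (y - z) * HT N T A y := by
    rw [← hsum]
    calc ∫⁻ ω, ∑' n, g n ω ∂P ≤ ∫⁻ ω, (E.indicator 1 ω + ∑' n : Fin N → ℕ, ∑' m : Fin N → ℕ,
        if far T n m then
          ({ω | z + ∑ i, S i (n i) ω ∈ A ∧ z + ∑ i, S i (m i) ω ∈ A} : Set Ω).indicator 1 ω else 0) ∂P :=
          lintegral_mono fun ω => (hpw ω).2
      _ = P E + ∑' n : Fin N → ℕ, ∑' m : Fin N → ℕ, if far T n m then
          P {ω | z + ∑ i, S i (n i) ω ∈ A ∧ z + ∑ i, S i (m i) ω ∈ A} else 0 := by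
          rw [lintegral_add_left (measurable_one.indicator hEm), hPE]
          congr 1
          rw [lintegral_tsum fun n => (Measurable.tsum fun m => hpm n m).aemeasurable]
          refine tsum_congr fun n => ?_
          rw [lintegral_tsum fun m => (hpm n m).aemeasurable]
          refine tsum_congr fun m => ?_
          by_cases a : far T n m
          · simp only [if_pos a]
            exact lintegral_indicator_one (hmm n m)
          · simp only [if_neg a, lintegral_zero]
      _ ≤ _ := by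
          gcongr
          have := h3 N d hd Ω P S hS T A z
          convert this
  -- splitting
  have hsplit : ∑' n, ∫⁻ ω, g n ω ∂P = (∑' n : Fin N → ℕ, if ∀ i, T ≤ n i then ∫⁻ ω, g n ω ∂P else 0) +
      ∑' n : Fin N → ℕ, if ∃ i, n i < T then ∫⁻ ω, g n ω ∂P else 0 := by
    rw [← ENNReal.tsum_add]
    refine tsum_congr fun n => ?_
    by_cases a : ∀ i, T ≤ n i
    · rw [if_pos a, if_neg (by push Not; exact a), add_zero]
    · rw [if_neg a, if_pos (by push Not at a; exact a), zero_add]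
  have hfirst : (∑' n : Fin N → ℕ, if ∀ i, T ≤ n i then ∫⁻ ω, g n ω ∂P else 0) =
      ∑' y, GN d N (y - z) * FT P S T A y := by
    have hinj : Function.Injective (fun (k : Fin N → ℕ) (i : Fin N) => k i + T) := by
      intro k k' h
      funext i
      have := congrFun h i
      simp only at this
      omega
    rw [← hinj.tsum_eq]
    · have e1 : ∀ k : Fin N → ℕ, (if ∀ i, T ≤ k i + T then ∫⁻ ω, g (fun i => k i + T) ω ∂P else 0) =
          ∑' y, q d (∑ i, k i) (y - z) * FT P S T A y := by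
        intro k
        rw [if_pos (fun i => by omega), hg]
        simp only
        rw [h2 N d hd Ω P S hS T A z (fun i => k i + T) (fun i => by omega)]
        simp only [Nat.add_sub_cancel]
      simp only [e1]
      rw [ENNReal.tsum_comm]
      refine tsum_congr fun y => ?_
      rw [ENNReal.tsum_mul_right]
      rfl
    · intro n hn
      rw [Function.mem_support] at hn
      by_cases a : ∀ i, T ≤ n i
      · refine ⟨fun i => n i - T, ?_⟩
        funext i
        have := a i
        simp only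
        omega
      · exact absurd (if_neg a) hn
  have hsecond : (∑' n : Fin N → ℕ, if ∃ i, n i < T then ∫⁻ ω, g n ω ∂P else 0) ≤ SM N T A z := by
    unfold SM
    refine ENNReal.tsum_le_tsum fun n => ?_
    by_cases a : ∃ i, n i < T
    · rw [if_pos a, if_pos a, ← law_mem h4 hd hS A z n]
      have e1 : P {ω | z + ∑ i, S i (n i) ω ∈ A} = ∫⁻ ω, hit A z (fun i j => S i j ω) n ∂P := by
        have hms : MeasurableSet {ω | z + ∑ i, S i (n i) ω ∈ A} := meas_mem hS (A : Set (Fin d → ℤ)) z n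
        rw [← lintegral_indicator_one hms]
        refine lintegral_congr fun ω => ?_
        rw [Set.indicator_apply]
        rfl
      rw [e1, hg]
      exact lintegral_mono fun ω => hit_le A T z _ n
    · rw [if_neg a, if_neg a]
  constructor
  · refine hI1.trans ?_
    rw [hsplit, hfirst]
    gcongr
  · rw [← hfirst]
    refine le_trans ?_ hI2
    rw [hsplit]
    exact le_self_add

end Pool.Agent.Q79.MR
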